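import Pool.Agent.Q241.AK.B

/-! # The abc conjecture over a number field is equivalent to its restriction to almost cubes -/

set_option autoImplicit false

open NumberField

namespace Pool.Agent.Results.MP_a793bb_nt.AlmostCubes

variable {K : Type} [Field K] [NumberField K]

/-- The height `h(P)` of the point `P` with the coordinates `x` (Mathlib's logarithmic height in `K`
divided by the degree of `K`). -/
noncomputable def h (x : Fin 3 → K) : ℝ := Height.logHeight x / Module.finrank ℚ K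

/-- The radical `rad(P)`: the sum of `log N(𝔭)` over the primes `𝔭` at which the absolute values of
the coordinates are not all equal, divided by the degree. -/
noncomputable def rad (x : Fin 3 → K) : ℝ :=
  (∑ᶠ v ∈ {v : FinitePlace K | ∃ i j, v (x i) ≠ v (x j)},
    Real.log ((Ideal.absNorm v.maximalIdeal.asIdeal : ℕ) : ℝ)) / Module.finrank ℚ K

/-- `x = (a, b, c)` with `a + b + c = 0` and `a b c ≠ 0` -/
def IsPoint (x : Fin 3 → K) : Prop := x 0 + x 1 + x 2 = 0 ∧ ∀ i, x i ≠ 0

/-- the abc inequality (with every `ε > 0`) for the points in the set `T` -/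
def ABCOn (T : Set (Fin 3 → K)) : Prop :=
  ∀ ε : ℝ, 0 < ε → ∃ C : ℝ, ∀ x ∈ T, h x < (1 + ε) * rad x + C

variable (K) in
/-- the abc conjecture for the field `K` -/
def ABC : Prop := ABCOn {x : Fin 3 → K | IsPoint x}

variable (K) in
/-- The points whose coordinates are cubes up to factors of small height: `P = (a X³ : b Y³ : c Z³)`
with `a + b + c = 0`, `a b c ≠ 0` and `h(a : b : c) ≤ η h(P)`. -/
def Cubes (η : ℝ) : Set (Fin 3 → K) :=
  {x | IsPoint x ∧ ∃ u y : Fin 3 → K, IsPoint u ∧ (∀ i, x i = u i * y i ^ 3) ∧ h u ≤ η * h x}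

/-- the map `D(a : b : c) = (a (b - c)³ : b (c - a)³ : c (a - b)³)` -/
def D (x : Fin 3 → K) : Fin 3 → K := fun i => x i * (x (i + 1) - x (i + 2)) ^ 3

variable (K) in
/-- the points which are the image of a point under the `r`-fold iterate of `D` -/
def Image (r : ℕ) : Set (Fin 3 → K) := {x | IsPoint x ∧ ∃ u : Fin 3 → K, IsPoint u ∧ x = D^[r] u}

theorem rad_eq (x : Fin 3 → K) : rad x = Q241.AK.rd x / Module.finrank ℚ K := by
  unfold rad Q241.AK.rd Q241.AK.Rd
  congr 1
  rw [Real.log_finprod (fun v => lt_of_lt_of_le one_pos (Q241.AK.one_le_pr _ v))]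
  refine finsum_congr fun v => ?_
  classical
  rw [finsum_eq_if]
  unfold Q241.AK.pr Q241.AK.N
  by_cases hv : v ∈ {v : FinitePlace K | ∃ i j, v (x i) ≠ v (x j)}
  · have hv' : v ∈ Q241.AK.D x := hv
    rw [if_pos hv, if_pos hv']
  · have hv' : v ∉ Q241.AK.D x := hv
    rw [if_neg hv, if_neg hv', Real.log_one]

theorem to_h {T : Set (Fin 3 → K)} {Q : (Fin 3 → K) → Prop} (hQ : ∀ x, Q x → x ∈ T)
    (H : ABCOn T) : Q241.AK.ABCfor Q := by
  have hd : (0 : ℝ) < Module.finrank ℚ K := by exact_mod_cast Module.finrank_pos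
  intro ε hε
  obtain ⟨C, hC⟩ := H ε hε
  refine ⟨Module.finrank ℚ K * C, fun x hx => ?_⟩
  have h2 := hC x (hQ x hx)
  rw [rad_eq] at h2
  unfold h at h2
  rw [div_lt_iff₀ hd] at h2
  have e : ((1 + ε) * (Q241.AK.rd x / Module.finrank ℚ K) + C) * Module.finrank ℚ K =
      (1 + ε) * Q241.AK.rd x + Module.finrank ℚ K * C := by
    field_simp
  rw [e] at h2
  exact h2.le

theorem of_h (H : Q241.AK.ABCfor (Q241.AK.TT (K := K))) : ABC K := by
  have hd : (0 : ℝ) < Module.finrank ℚ K := by exact_mod_cast Module.finrank_pos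
  intro ε hε
  obtain ⟨C, hC⟩ := H ε hε
  refine ⟨C / Module.finrank ℚ K + 1, fun x hx => ?_⟩
  have h4 := hC x hx
  rw [rad_eq]
  unfold h
  rw [div_lt_iff₀ hd]
  have e : ((1 + ε) * (Q241.AK.rd x / Module.finrank ℚ K) + (C / Module.finrank ℚ K + 1)) *
      Module.finrank ℚ K = (1 + ε) * Q241.AK.rd x + C + Module.finrank ℚ K := by
    field_simp
    ring
  rw [e]
  linarith

theorem mono {T T' : Set (Fin 3 → K)} (h : T ⊆ T') (H : ABCOn T') : ABCOn T := by
  intro ε hε
  obtain ⟨C, hC⟩ := H ε hε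
  exact ⟨C, fun x hx => hC x (h hx)⟩

/-- **For every number field `K`** the abc conjecture for `K` is equivalent (1) to its restriction to
the image of the `r`-fold iterate of `D`, for each `r`; (2) to its restriction to the almost cubes,
for each `η > 0`. -/
theorem result (K : Type) [Field K] [NumberField K] :
    (∀ r : ℕ, (ABC K ↔ ABCOn (Image K r))) ∧
    (∀ η : ℝ, 0 < η → (ABC K ↔ ABCOn (Cubes K η))) := by
  have hd : (0 : ℝ) < Module.finrank ℚ K := by exact_mod_cast Module.finrank_pos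
  refine ⟨fun r => ⟨mono fun x hx => hx.1, fun H => ?_⟩,
    fun η hη => ⟨mono fun x hx => hx.1, fun H => ?_⟩⟩
  · exact of_h (Q241.AK.chain r (to_h (T := Image K r) (Q := Q241.AK.P r)
      (fun x hx => ⟨Q241.AK.P_TT r x hx, Q241.AK.P_src r x hx⟩) H))
  · refine of_h (Q241.AK.reduction hη (to_h ?_ H))
    rintro x ⟨hx, u, y, g1, g2, g3⟩
    refine ⟨hx, u, y, g1, g2, ?_⟩
    unfold h
    rw [← mul_div_assoc]
    gcongr

end Pool.Agent.Results.MP_a793bb_nt.AlmostCubes
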