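import Pool.Agent.Q183.AR.AbcK

/-!
# MP_a793bb_nt: the abc inequality along linear recurrences over number fields
-/

set_option autoImplicit false

namespace Pool.Agent.Results.MP_a793bb_nt.AlongRecurrences

open NumberField Pool.Agent.Q183.AR H645.ABC

variable {K : Type} [Field K] [NumberField K] {J : Type} [Fintype J]

/-- the coordinate `A_i(t) = κ_i μ_i ^ t ∏ g_j(t) ^ e_ij` of the point `P_t` -/
def A (κ μ : Fin 3 → 𝓞 K) (g : J → ℕ → 𝓞 K) (e : Fin 3 → J → ℕ) (i : Fin 3) (t : ℕ) : 𝓞 K :=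
  κ i * μ i ^ t * ∏ j, g j t ^ e i j

/-- the indices `j` with exponents `e_0j, e_1j, e_2j` which are not all equal -/
def uneq (e : Fin 3 → J → ℕ) : Finset J :=
  Finset.univ.filter fun j => ¬ (e 0 j = e 1 j ∧ e 1 j = e 2 j)

/-- The inequalities for `P_s`: the height is at most the sum of the logarithms of the norms of the
`g_j(s)`, `j` in `uneq e`, up to a constant; it is at most the radical, up to a constant, if the
product of these `g_j(s)` is squarefree. -/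
def Good (κ μ : Fin 3 → 𝓞 K) (g : J → ℕ → 𝓞 K) (e : Fin 3 → J → ℕ) (C : ℝ) (s : ℕ) : Prop :=
  (∀ i, A κ μ g e i s ≠ 0) ∧
  ht (fun i => (A κ μ g e i s : K)) ≤
    (∑ j ∈ uneq e, Real.log |((Algebra.norm ℚ (g j s : K) : ℚ) : ℝ)|) / Module.finrank ℚ K + C ∧
  (Squarefree (Ideal.span {∏ j ∈ uneq e, g j s}) →
    ht (fun i => (A κ μ g e i s : K)) ≤ rad (fun i => (A κ μ g e i s : K)) + C)

theorem result (g : J → ℕ → 𝓞 K)
    (hg : ∀ j, ∃ E : LinearRecurrence (𝓞 K), E.IsSolution (g j)) (κ μ : Fin 3 → 𝓞 K)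
    (hμ : ∀ i, μ i ≠ 0) (e : Fin 3 → J → ℕ) (hsum : ∀ t, ∑ i, A κ μ g e i t = 0) :
    ∃ M : ℕ, 0 < M ∧ ∀ ρ : ℕ,
      (∃ (c₀ c₁ : K) (z : ℕ), (c₀ ≠ 0 ∨ c₁ ≠ 0) ∧ ∀ t, z ≤ t → t ≡ ρ [MOD M] →
        c₀ * (A κ μ g e 0 t : K) = c₁ * (A κ μ g e 1 t : K)) ∨
      ∀ η : ℝ, 0 < η → ∃ (C : ℝ) (T z : ℕ), ∀ t n : ℕ, z ≤ t → T ≤ n →
        (({s | t ≤ s ∧ s < t + n ∧ s ≡ ρ [MOD M] ∧ ¬ Good κ μ g e C s}.ncard : ℕ) : ℝ) ≤
          η * n := by
  classical
  obtain ⟨M, hM, h⟩ := abcMul g hg κ μ hμ e hsum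
  obtain ⟨B, hB0, hB⟩ := sqf_rad κ μ hμ g e
  refine ⟨M, hM, fun ρ => ?_⟩
  rcases h ρ with h1 | h1
  · exact Or.inl h1
  right
  have hd : (1 : ℝ) ≤ Module.finrank ℚ K := by exact_mod_cast Module.finrank_pos
  intro η hη
  obtain ⟨C, T, z, hC, h2⟩ := h1 η hη
  refine ⟨|Real.log C| + B, T, z, fun t n htz hn => le_trans ?_ (h2 t n htz hn)⟩
  have h3 : {s | t ≤ s ∧ s < t + n ∧ s ≡ ρ [MOD M] ∧ ¬ Good κ μ g e (|Real.log C| + B) s} ⊆
      {s | t ≤ s ∧ s < t + n ∧ ¬ (s ≡ ρ [MOD M] → (∀ i, term κ μ g e i s ≠ 0) ∧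
        Height.mulHeight (fun i => (term κ μ g e i s : K)) ≤
          C * ∏ j ∈ unequal e, |((Algebra.norm ℚ (g j s : K) : ℚ) : ℝ)|)} := by
    rintro s ⟨h4, h5, h6, h7⟩
    refine ⟨h4, h5, fun h8 => h7 ?_⟩
    obtain ⟨h9, h10⟩ := h8 h6
    have hcommon : ht (fun i => (term κ μ g e i s : K)) ≤
        Real.log (∏ j ∈ unequal e, |((Algebra.norm ℚ (g j s : K) : ℚ) : ℝ)|) /
          Module.finrank ℚ K + |Real.log C| := by
      have hh : 1 ≤ Height.mulHeight (fun i => (term κ μ g e i s : K)) :=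
        Height.one_le_mulHeight _
      have hP : 0 < C * ∏ j ∈ unequal e, |((Algebra.norm ℚ (g j s : K) : ℚ) : ℝ)| :=
        lt_of_lt_of_le (lt_of_lt_of_le one_pos hh) h10
      have hP' : 0 < ∏ j ∈ unequal e, |((Algebra.norm ℚ (g j s : K) : ℚ) : ℝ)| :=
        (mul_pos_iff_of_pos_left hC).1 hP
      unfold ht
      rw [Height.logHeight_eq_log_mulHeight]
      have h11 := Real.log_le_log (by linarith) h10
      rw [Real.log_mul hC.ne' hP'.ne'] at h11
      have hd0 : (0 : ℝ) < Module.finrank ℚ K := by linarith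
      rw [div_add' _ _ _ hd0.ne']
      refine div_le_div_of_nonneg_right (h11.trans ?_) hd0.le
      have h12 : Real.log C ≤ |Real.log C| * Module.finrank ℚ K :=
        (le_abs_self _).trans (le_mul_of_one_le_right (abs_nonneg _) hd)
      linarith
    refine ⟨h9, ?_, fun hsq => ?_⟩
    · change ht (fun i => (term κ μ g e i s : K)) ≤ (∑ j ∈ unequal e,
        Real.log |((Algebra.norm ℚ (g j s : K) : ℚ) : ℝ)|) / Module.finrank ℚ K +
          (|Real.log C| + B)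
      have hne : ∀ j ∈ unequal e, |((Algebra.norm ℚ (g j s : K) : ℚ) : ℝ)| ≠ 0 := by
        intro j hj h0
        have hP : 0 < C * ∏ j ∈ unequal e, |((Algebra.norm ℚ (g j s : K) : ℚ) : ℝ)| :=
          lt_of_lt_of_le (lt_of_lt_of_le one_pos (Height.one_le_mulHeight _)) h10
        rw [Finset.prod_eq_zero hj h0, mul_zero] at hP
        exact lt_irrefl 0 hP
      rw [← Real.log_prod hne]
      linarith
    · have h11 := hB s h9 hsq
      change ht (fun i => (term κ μ g e i s : K)) ≤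
        rad (fun i => (term κ μ g e i s : K)) + (|Real.log C| + B)
      linarith
  exact_mod_cast Set.ncard_le_ncard h3 ((Set.finite_Ico t (t + n)).subset fun _ hs => ⟨hs.1, hs.2.1⟩)

end Pool.Agent.Results.MP_a793bb_nt.AlongRecurrences
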