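import Pool.Agent.Q265.NF.E

/-!
# Localisation of the abc conjecture over a number field at finitely many places

For every number field `K`, every finite set `S` of finite places, every `δ > 0` and `k ≥ 1`, the abc
conjecture for `K` follows from the abc inequality for the points `(ζ ^ k : 1 - ζ ^ k : -1)` where
`ζ ∈ K` has absolute value less than `δ` at all infinite places and at all places of `S`.
-/

set_option autoImplicit false

open NumberField

namespace Pool.Agent.Results.MP_a793bb_nt.Localisation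

variable {K : Type} [Field K] [NumberField K]

/-- The height `h(P)` of the point `P` with the coordinates `x` (Mathlib's logarithmic height in `K`
divided by the degree of `K`). -/
noncomputable def h (x : Fin 3 → K) : ℝ := Height.logHeight x / Module.finrank ℚ K

/-- The radical `rad(P)`: the sum of `log N(𝔭)` over the primes `𝔭` at which the absolute values of
the coordinates are not all equal, divided by the degree. -/
noncomputable def rad (x : Fin 3 → K) : ℝ :=
  (∑ᶠ v ∈ {v : FinitePlace K | ∃ i j, v (x i) ≠ v (x j)},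
    Real.log ((Ideal.absNorm v.maximalIdeal.asIdeal : ℕ) : ℝ)) / Module.finrank ℚ K

/-- `x = (a, b, c)` with `a + b + c = 0` and `a b c ≠ 0` -/
def IsPoint (x : Fin 3 → K) : Prop := x 0 + x 1 + x 2 = 0 ∧ ∀ i, x i ≠ 0

/-- the abc inequality (with every `ε > 0`) for the points in the set `T` -/
def ABCOn (T : Set (Fin 3 → K)) : Prop :=
  ∀ ε : ℝ, 0 < ε → ∃ C : ℝ, ∀ x ∈ T, h x < (1 + ε) * rad x + C

variable (K) in
/-- the abc conjecture for the field `K` -/
def ABC : Prop := ABCOn {x : Fin 3 → K | IsPoint x}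

/-- The points `P = (ζ ^ k : 1 - ζ ^ k : -1)`, that is `P = (a : b : c)` with `a + b + c = 0`,
`a b c ≠ 0` and `a / (-c) = ζ ^ k`, for which `ζ ∈ K` has absolute value less than `δ` at all
infinite places and at all the places in `S`. -/
def Close (S : Finset (FinitePlace K)) (δ : ℝ) (k : ℕ) : Set (Fin 3 → K) :=
  {x | IsPoint x ∧ ∃ ζ : K, x 0 = -(ζ ^ k * x 2) ∧ (∀ w : InfinitePlace K, w ζ < δ) ∧
    ∀ v ∈ S, v ζ < δ}

theorem rad_eq (x : Fin 3 → K) : rad x = Q241.AK.rd x / Module.finrank ℚ K := by
  unfold rad Q241.AK.rd Q241.AK.Rd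
  congr 1
  rw [Real.log_finprod (fun v => lt_of_lt_of_le one_pos (Q241.AK.one_le_pr _ v))]
  refine finsum_congr fun v => ?_
  classical
  rw [finsum_eq_if]
  unfold Q241.AK.pr Q241.AK.N
  by_cases hv : v ∈ {v : FinitePlace K | ∃ i j, v (x i) ≠ v (x j)}
  · have hv' : v ∈ Q241.AK.D x := hv
    rw [if_pos hv, if_pos hv']
  · have hv' : v ∉ Q241.AK.D x := hv
    rw [if_neg hv, if_neg hv', Real.log_one]

theorem to_h {T : Set (Fin 3 → K)} {Q : (Fin 3 → K) → Prop} (hQ : ∀ x, Q x → x ∈ T)
    (H : ABCOn T) : Q241.AK.ABCfor Q := by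
  have hd : (0 : ℝ) < Module.finrank ℚ K := by exact_mod_cast Module.finrank_pos
  intro ε hε
  obtain ⟨C, hC⟩ := H ε hε
  refine ⟨Module.finrank ℚ K * C, fun x hx => ?_⟩
  have h2 := hC x (hQ x hx)
  rw [rad_eq] at h2
  unfold h at h2
  rw [div_lt_iff₀ hd] at h2
  have e : ((1 + ε) * (Q241.AK.rd x / Module.finrank ℚ K) + C) * Module.finrank ℚ K =
      (1 + ε) * Q241.AK.rd x + Module.finrank ℚ K * C := by
    field_simp
  rw [e] at h2
  exact h2.le

theorem of_h (H : Q241.AK.ABCfor (Q241.AK.TT (K := K))) : ABC K := by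
  have hd : (0 : ℝ) < Module.finrank ℚ K := by exact_mod_cast Module.finrank_pos
  intro ε hε
  obtain ⟨C, hC⟩ := H ε hε
  refine ⟨C / Module.finrank ℚ K + 1, fun x hx => ?_⟩
  have h4 := hC x hx
  rw [rad_eq]
  unfold h
  rw [div_lt_iff₀ hd]
  have e : ((1 + ε) * (Q241.AK.rd x / Module.finrank ℚ K) + (C / Module.finrank ℚ K + 1)) *
      Module.finrank ℚ K = (1 + ε) * Q241.AK.rd x + C + Module.finrank ℚ K := by
    field_simp
    ring
  rw [e]
  linarith

/-- **For every number field `K`, every finite set `S` of finite places, every `δ > 0` and every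
`k ≥ 1`** the abc conjecture for `K` is equivalent to the abc inequality for the points
`(ζ ^ k : 1 - ζ ^ k : -1)` where `ζ` has absolute value less than `δ` at all infinite places and at
all the places of `S`. -/
theorem result (K : Type) [Field K] [NumberField K] (S : Finset (FinitePlace K)) (δ : ℝ)
    (hδ : 0 < δ) (k : ℕ) (hk : 1 ≤ k) : ABC K ↔ ABCOn (Close S δ k) := by
  refine ⟨fun H ε hε => ?_, fun H => ?_⟩
  · obtain ⟨C, hC⟩ := H ε hε
    exact ⟨C, fun x hx => hC x hx.1⟩
  · exact of_h (Q265.NF.localise S hδ hk (to_h (fun x hx => hx) H))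

end Pool.Agent.Results.MP_a793bb_nt.Localisation
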