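import Mathlib
import Pool.Agent.Q273.AD.AbcM2

/-!
# The metric theory of the abc conjecture over number fields

`K` is a number field of degree `d`. The points `P = (a : b : c)` over `K` with `a + b + c = 0`,
`abc ≠ 0` have the affine coordinate `x = -a / c`, the height `h(P)` and the radical `rad(P)`, which is
the sum of the parts `rad_i(P)` from the primes dividing the `i`-th coordinate more than the others.

The target is an integral adelic point `u = (ξ, η)`: `ξ ∈ K ⊗ ℝ` and `η = (η_v)_v` in the product of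
the rings `O_v`. The theorem describes, for almost every `u`, how `h(P)`, the parts `rad_i(P)` and the
local proximities of `x` to the components of `u` are related, for ALL points `P`; and it computes
Hausdorff dimensions of sets of targets `ξ ∈ K ⊗ ℝ` with many approximations of small radical.
-/

set_option autoImplicit false

open MeasureTheory NumberField IsDedekindDomain NumberField.mixedEmbedding

namespace Pool.Agent.Results.MP_a793bb_nt.MetricAbcLaw

variable {K : Type} [Field K] [NumberField K]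

/-- the points `P = (a : b : c)` with `a + b + c = 0` and `abc ≠ 0`, by coordinates -/
def IsPoint (x : Fin 3 → K) : Prop := x 0 * x 1 * x 2 ≠ 0 ∧ x 0 + x 1 + x 2 = 0

/-- the height `h(P)` of the point `P` with coordinates `x` -/
noncomputable def height (x : Fin 3 → K) : ℝ :=
  (∑ w : InfinitePlace K, (w.mult : ℝ) * Real.log (max (w (x 0)) (max (w (x 1)) (w (x 2)))) +
    ∑ᶠ v : HeightOneSpectrum (𝓞 K), Real.log
      (max (FinitePlace.mk v (x 0)) (max (FinitePlace.mk v (x 1)) (FinitePlace.mk v (x 2))))) /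
    (Module.finrank ℚ K : ℝ)

/-- the radical `rad(P)` of the point `P` with coordinates `x`: the sum of `log N(v) / d` over the
primes `v` at which the valuations of the coordinates are not all equal -/
noncomputable def rad (x : Fin 3 → K) : ℝ :=
  (∑ᶠ (v : HeightOneSpectrum (𝓞 K)) (_ : ¬ (FinitePlace.mk v (x 0) = FinitePlace.mk v (x 1) ∧
        FinitePlace.mk v (x 1) = FinitePlace.mk v (x 2))),
    Real.log (Ideal.absNorm v.asIdeal : ℝ)) / (Module.finrank ℚ K : ℝ)

/-- the part `rad_i(P)` of the radical: the sum over the primes at which the coordinate `x i` has a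
larger valuation than another coordinate -/
noncomputable def radPart (i : Fin 3) (x : Fin 3 → K) : ℝ :=
  (∑ᶠ (v : HeightOneSpectrum (𝓞 K)) (_ : FinitePlace.mk v (x i) <
      max (FinitePlace.mk v (x 0)) (max (FinitePlace.mk v (x 1)) (FinitePlace.mk v (x 2)))),
    Real.log (Ideal.absNorm v.asIdeal : ℝ)) / (Module.finrank ℚ K : ℝ)

/-- the affine coordinate `-a / c` of the point `(a : b : c)` -/
def affine (x : Fin 3 → K) : K := -(x 0 / x 2)

/-- the group of the integral finite adelic points: the product over all primes `v` of the rings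
`O_v`, with the product topology -/
abbrev FinAd (K : Type) [Field K] [NumberField K] : Type :=
  (v : HeightOneSpectrum (𝓞 K)) → v.adicCompletionIntegers K

/-- the proximity function at the infinite place `w`:
`[K_w : ℝ] / [K : ℚ] log max (1, 1 / |ξ_w - y|_w)` -/
noncomputable def mw (ξ : mixedSpace K) (w : InfinitePlace K) (y : K) : ℝ :=
  (w.mult : ℝ) * Real.log (max 1 (normAtPlace w (ξ - mixedEmbedding K y))⁻¹) /
    (Module.finrank ℚ K : ℝ)

/-- the proximity function at the prime `v`: `log max (1, 1 / |η_v - y|_v) / [K : ℚ]`, with the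
absolute value for which a uniformiser has absolute value `1 / N(v)` -/
noncomputable def mv (η : FinAd K) (v : HeightOneSpectrum (𝓞 K)) (y : K) : ℝ :=
  Real.log (max 1 ‖(η v : v.adicCompletion K) - FinitePlace.embedding v y‖⁻¹) /
    (Module.finrank ℚ K : ℝ)

/-- the proximity function `m_V` at all infinite places and at the primes in `V` -/
noncomputable def prox (V : Finset (HeightOneSpectrum (𝓞 K))) (u : mixedSpace K × FinAd K)
    (x : Fin 3 → K) : ℝ :=
  ∑ w : InfinitePlace K, mw u.1 w (affine x) + ∑ v ∈ V, mv u.2 v (affine x)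

/-- a continuous, decreasing, piecewise linear function on `[0, 2]` -/
noncomputable def e (t : ℝ) : ℝ :=
  if t ≤ 1 then 2 - t
  else if t ≤ 4 / 3 then 1
  else if t ≤ 17 / 12 then 7 / 3 - t
  else if t ≤ 3 / 2 then 13 / 8 - t / 2
  else if t ≤ 17 / 10 then 29 / 16 - 5 * t / 8
  else if t ≤ 7 / 4 then 3 / 4
  else if t ≤ 9 / 5 then 5 / 2 - t
  else if t ≤ 13 / 7 then 8 / 5 - t / 2
  else if t ≤ 19 / 10 then 47 / 70
  else 2 - 93 * t / 133

/-- the exponent, an increasing function with `F(1) = 20/37` and `F(t) = t - 1` for `t ≥ 2` -/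
noncomputable def F (t : ℝ) : ℝ := if t ≤ 1 then min (4 * t / 7) (20 / 37) else e (3 - t)

/-- `(τ, σ, θ)` is a limit point, for `h(P) → ∞`, of `((m_w)_w, (m_v)_{v ∈ V}, (rad_i)_i) / h` -/
def IsLimit (V : Finset (HeightOneSpectrum (𝓞 K))) (u : mixedSpace K × FinAd K)
    (τ : InfinitePlace K → ℝ) (σ : HeightOneSpectrum (𝓞 K) → ℝ) (θ : Fin 3 → ℝ) : Prop :=
  ∀ ε : ℝ, 0 < ε → ∀ B : ℝ, ∃ x : Fin 3 → K, IsPoint x ∧ B ≤ height x ∧
    (∀ w, |mw u.1 w (affine x) - τ w * height x| ≤ ε * height x) ∧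
    (∀ v ∈ V, |mv u.2 v (affine x) - σ v * height x| ≤ ε * height x) ∧
    ∀ i, |radPart i x - θ i * height x| ≤ ε * height x

open scoped Classical in
/-- the targets with approximations of order `τ`, of unbounded height, for which the parts of the
radical are at most `(θ_i + o(1)) h(P)` -/
def Approximable (K : Type) [Field K] [NumberField K] (τ : ℝ) (θ : Fin 3 → ℝ) :
    Set (mixedSpace K) :=
  {ξ | ∀ ε : ℝ, 0 < ε → ∀ B : ℝ, ∃ x : Fin 3 → K, IsPoint x ∧ B ≤ height x ∧
    ‖ξ - mixedEmbedding K (affine x)‖ ≤ Real.exp (-((τ - ε) * height x)) ∧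
    ∀ i, radPart i x ≤ (θ i + ε) * height x}

open scoped Classical in
/-- the targets with approximations of order `τ`, of unbounded height, with `rad(P) ≤ lam h(P) + c`
for some `c` -/
def SmallRadical (K : Type) [Field K] [NumberField K] (lam τ : ℝ) : Set (mixedSpace K) :=
  {ξ | ∃ c : ℝ, ∀ B : ℝ, ∃ x : Fin 3 → K, IsPoint x ∧ B ≤ height x ∧
    ‖ξ - mixedEmbedding K (affine x)‖ ≤ Real.exp (c - τ * height x) ∧
    rad x ≤ lam * height x + c}

private lemma isPt_iff (x : Fin 3 → K) : IsPoint x ↔ Q273.AD.IsPt x := by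
  constructor
  · rintro ⟨h1, h2⟩
    refine ⟨fun i h => h1 ?_, h2⟩
    fin_cases i
    · rw [show x 0 = 0 from h]; ring
    · rw [show x 1 = 0 from h]; ring
    · rw [show x 2 = 0 from h]; ring
  · rintro ⟨h1, h2⟩
    exact ⟨mul_ne_zero (mul_ne_zero (h1 0) (h1 1)) (h1 2), h2⟩

private lemma hd : (0 : ℝ) < (Module.finrank ℚ K : ℝ) := Q273.AD.dg_pos

private lemma hd1 : (1 : ℝ) ≤ (Module.finrank ℚ K : ℝ) := Q273.AD.one_le_dg

private lemma eh (x : Fin 3 → K) :
    Pool.Agent.W223.AK.H3 x = (Module.finrank ℚ K : ℝ) * height x := by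
  unfold height
  rw [mul_div_cancel₀ _ (hd (K := K)).ne']
  rfl

private lemma er (x : Fin 3 → K) :
    Pool.Agent.W223.AK.R3 ∅ x = (Module.finrank ℚ K : ℝ) * rad x := by
  unfold rad Pool.Agent.W223.AK.R3
  rw [mul_div_cancel₀ _ (hd (K := K)).ne']
  simp only [Set.mem_empty_iff_false, not_false_eq_true, true_and]

private lemma en (x : Fin 3 → K) (i : Fin 3) :
    Q273.AD.NK ∅ x i = (Module.finrank ℚ K : ℝ) * radPart i x := by
  unfold radPart Q273.AD.NK
  rw [mul_div_cancel₀ _ (hd (K := K)).ne']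
  simp only [Set.mem_empty_iff_false, not_false_eq_true, true_and]

private lemma ew (u : mixedSpace K × FinAd K) (w : InfinitePlace K) (y : K) : (w.mult : ℝ) *
    Q273.AD.pw (fun _ : Fin 1 => u.1) w (fun _ => y) =
      (Module.finrank ℚ K : ℝ) * mw u.1 w y := by
  unfold mw Q273.AD.pw
  rw [ciSup_const, mul_div_cancel₀ _ (hd (K := K)).ne']

private lemma ev (u : mixedSpace K × FinAd K) (v : HeightOneSpectrum (𝓞 K)) (y : K) :
    Q273.AD.pv v (Q273.AD.Ph1 u.2 v) (fun _ => y) = (Module.finrank ℚ K : ℝ) * mv u.2 v y := by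
  unfold mv
  rw [mul_div_cancel₀ _ (hd (K := K)).ne']
  show Real.log (max 1 (⨆ _ : Fin 1, ‖(u.2 v : v.adicCompletion K) -
    FinitePlace.embedding v y‖)⁻¹) = _
  rw [ciSup_const]

private lemma ep (V : Finset (HeightOneSpectrum (𝓞 K))) (u : mixedSpace K × FinAd K)
    (x : Fin 3 → K) : Q273.AD.prA V ((fun _ => u.1, Q273.AD.Ph1 u.2) :
      (Fin 1 → mixedSpace K) × Q273.AD.FinAd K 1) (fun _ => Q273.AD.aff x) =
        (Module.finrank ℚ K : ℝ) * prox V u x := by
  unfold prox Q273.AD.prA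
  rw [Q273.AD.prox_eq, mul_add, Finset.mul_sum, Finset.mul_sum]
  congr 1
  · exact Finset.sum_congr rfl fun w _ => ew u w _
  · exact Finset.sum_congr rfl fun v _ => ev u v _

private lemma eF (t : ℝ) : Q273.AD.FK t = F t := by
  unfold Q273.AD.FK F
  by_cases h : t ≤ 1
  · rw [if_pos h, if_pos h]
  · rw [if_neg h, if_neg h]
    push Not at h
    unfold e Pool.Agent.Results.MP_4d5ce1_nt.ExceptionalSetExponents.expoThree
    simp only [if_pos (show 3 - t ≤ 8512 / 4185 by linarith)]

private lemma abs_scale (A t h ε : ℝ) :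
    |(Module.finrank ℚ K : ℝ) * A - t * ((Module.finrank ℚ K : ℝ) * h)| ≤
      ε * ((Module.finrank ℚ K : ℝ) * h) ↔ |A - t * h| ≤ ε * h := by
  have hd := hd (K := K)
  have e1 : (Module.finrank ℚ K : ℝ) * A - t * ((Module.finrank ℚ K : ℝ) * h) =
      (Module.finrank ℚ K : ℝ) * (A - t * h) := by ring
  have e2 : ε * ((Module.finrank ℚ K : ℝ) * h) = (Module.finrank ℚ K : ℝ) * (ε * h) := by ring
  rw [e1, e2, abs_mul, abs_of_pos hd, mul_le_mul_iff_right₀ hd]

private lemma isLimit_iff (V : Finset (HeightOneSpectrum (𝓞 K))) (u : mixedSpace K × FinAd K)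
    (τ : InfinitePlace K → ℝ) (σ : HeightOneSpectrum (𝓞 K) → ℝ) (θ : Fin 3 → ℝ) :
    IsLimit V u τ σ θ ↔ Q273.AD.LimM V ((fun _ => u.1, Q273.AD.Ph1 u.2) :
      (Fin 1 → mixedSpace K) × Q273.AD.FinAd K 1) τ σ (fun i => 1 - θ i) := by
  have hd := hd (K := K)
  have key : ∀ (x : Fin 3 → K) (ε : ℝ),
      ((∀ w, |mw u.1 w (affine x) - τ w * height x| ≤ ε * height x) ∧
        (∀ v ∈ V, |mv u.2 v (affine x) - σ v * height x| ≤ ε * height x) ∧
        ∀ i, |radPart i x - θ i * height x| ≤ ε * height x) ↔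
      ((∀ w : InfinitePlace K, |(w.mult : ℝ) * Q273.AD.pw (fun _ : Fin 1 => u.1) w
          (fun _ => Q273.AD.aff x) - τ w * Pool.Agent.W223.AK.H3 x| ≤
          ε * Pool.Agent.W223.AK.H3 x) ∧
        (∀ v ∈ V, |Q273.AD.pv v (Q273.AD.Ph1 u.2 v) (fun _ => Q273.AD.aff x) -
          σ v * Pool.Agent.W223.AK.H3 x| ≤ ε * Pool.Agent.W223.AK.H3 x) ∧
        ∀ i, |Q273.AD.NK ∅ x i - (1 - (1 - θ i)) * Pool.Agent.W223.AK.H3 x| ≤
          ε * Pool.Agent.W223.AK.H3 x) := by
    intro x ε
    refine and_congr ?_ (and_congr ?_ ?_)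
    · refine forall_congr' fun w => ?_
      rw [ew, eh, abs_scale]
      rfl
    · refine forall_congr' fun v => forall_congr' fun _ => ?_
      rw [ev, eh, abs_scale]
      rfl
    · refine forall_congr' fun i => ?_
      rw [en, eh, abs_scale, sub_sub_cancel]
  constructor
  · intro h ε hε B
    obtain ⟨x, h1, h2, h3⟩ := h ε hε (max B 0)
    refine ⟨x, (isPt_iff x).1 h1, ?_, (key x ε).1 h3⟩
    rw [eh]
    have hB0 : 0 ≤ height x := (le_max_right _ _).trans h2
    have := (le_max_left B 0).trans h2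
    have := hd1 (K := K)
    nlinarith
  · intro h ε hε B
    obtain ⟨x, h1, h2, h3⟩ := h ε hε ((Module.finrank ℚ K : ℝ) * B)
    refine ⟨x, (isPt_iff x).2 h1, ?_, (key x ε).2 h3⟩
    rw [eh] at h2
    exact le_of_mul_le_mul_left h2 hd

private lemma approximable_eq (τ : ℝ) (θ : Fin 3 → ℝ) :
    Approximable K τ θ = Q273.AD.AppM (τ / (Module.finrank ℚ K : ℝ)) θ := by
  have hd := hd (K := K)
  have hd1 := hd1 (K := K)
  ext ξ
  constructor
  · intro h ε hε B
    obtain ⟨x, h1, h2, h3, h4⟩ := h ε hε (max B 0)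
    have hB0 : 0 ≤ height x := (le_max_right _ _).trans h2
    refine ⟨x, (isPt_iff x).1 h1, ?_, h3.trans (Real.exp_le_exp.2 ?_), fun i => ?_⟩
    · rw [eh]
      have := (le_max_left B 0).trans h2
      nlinarith
    · rw [eh]
      have e : (τ / (Module.finrank ℚ K : ℝ) - ε) * ((Module.finrank ℚ K : ℝ) * height x) =
          (τ - (Module.finrank ℚ K : ℝ) * ε) * height x := by
        field_simp
      rw [e]
      have : ε * height x ≤ (Module.finrank ℚ K : ℝ) * ε * height x := by
        have := mul_nonneg hε.le hB0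
        nlinarith
      linarith
    · rw [en, eh]
      have := mul_le_mul_of_nonneg_left (h4 i) hd.le
      linarith
  · intro h ε hε B
    obtain ⟨x, h1, h2, h3, h4⟩ := h (ε / (Module.finrank ℚ K : ℝ)) (by positivity)
      ((Module.finrank ℚ K : ℝ) * max B 0)
    rw [eh] at h2
    have h2' := le_of_mul_le_mul_left h2 hd
    have hB0 : 0 ≤ height x := (le_max_right _ _).trans h2'
    refine ⟨x, (isPt_iff x).2 h1, (le_max_left _ _).trans h2', h3.trans (le_of_eq ?_),
      fun i => ?_⟩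
    · congr 1
      rw [eh]
      field_simp
    · have h5 : ε / (Module.finrank ℚ K : ℝ) ≤ ε := div_le_self hε.le hd1
      have h6 := h4 i
      rw [en, eh] at h6
      have h7 : (θ i + ε / (Module.finrank ℚ K : ℝ)) * ((Module.finrank ℚ K : ℝ) * height x) ≤
          (Module.finrank ℚ K : ℝ) * ((θ i + ε) * height x) := by
        have h8 : (θ i + ε / (Module.finrank ℚ K : ℝ)) * height x ≤ (θ i + ε) * height x :=
          mul_le_mul_of_nonneg_right (by linarith) hB0
        have := mul_le_mul_of_nonneg_left h8 hd.le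
        linarith
      exact le_of_mul_le_mul_left (h6.trans h7) hd

private lemma small_sub (lam τ : ℝ) :
    SmallRadical K lam τ ⊆ Q273.AD.SmM lam (τ / (Module.finrank ℚ K : ℝ)) := by
  have hd := hd (K := K)
  have hd1 := hd1 (K := K)
  rintro ξ ⟨c, hc⟩
  refine ⟨(Module.finrank ℚ K : ℝ) * |c|, fun B => ?_⟩
  have hc0 := abs_nonneg c
  have hc1 := le_abs_self c
  obtain ⟨x, h1, h2, h3, h4⟩ := hc (max B 0)
  have hB0 : 0 ≤ height x := (le_max_right _ _).trans h2
  refine ⟨x, (isPt_iff x).1 h1, ?_, h3.trans (Real.exp_le_exp.2 ?_), ?_⟩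
  · rw [eh]
    have := (le_max_left B 0).trans h2
    nlinarith
  · rw [eh]
    have e : τ / (Module.finrank ℚ K : ℝ) * ((Module.finrank ℚ K : ℝ) * height x) =
        τ * height x := by
      field_simp
    rw [e]
    nlinarith
  · rw [er, eh]
    have := mul_le_mul_of_nonneg_left h4 hd.le
    have h5 : (Module.finrank ℚ K : ℝ) * c ≤ (Module.finrank ℚ K : ℝ) * |c| :=
      mul_le_mul_of_nonneg_left hc1 hd.le
    linarith

open scoped Classical in
/-- **The metric theory of the abc conjecture over a number field `K` of degree `d`.** Let `μ` be a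
finite translation invariant Borel measure on the compact group `FinAd K` (a multiple of Haar
measure). For almost every `u = (ξ, η)` with respect to the product of Lebesgue measure and `μ`, for
all finite sets `V` of primes:

1. for every `ε > 0` there is `C` such that `m_V(P) ≤ (F(rad(P) / h(P)) + ε) h(P) + C` for ALL `P`;
2. for all `c` and `ε > 0`, all `P` of sufficiently large height with `m_V(P) ≥ (20/37 + ε) h(P)`
   satisfy `h(P) + c < rad(P)`;
3. for every `ε > 0` there is `C` such that `h(P) + m_V(P) ≤ rad(P) + ε h(P) + C` for all `P` with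
   `m_V(P) ≥ (1 + ε) h(P)` or `rad(P) ≥ 2 h(P)`;
4. for `∑ (1 - θ_i) ≤ 1` or `∑ τ_w + ∑ σ_v > 1`, the vector `(τ, σ, θ)` is a limit point of
   `((m_w)_w, (m_v)_v, (rad_i)_i) / h` if and only if `τ_w ≥ 0`, `σ_v ≥ 0`, `0 ≤ θ_i ≤ 1` and
   `∑ τ_w + ∑ σ_v + ∑ (1 - θ_i) ≤ 2`.

5. If `∑ (1 - θ_i) ≤ 1`, then the set of the `ξ ∈ K ⊗ ℝ` with approximations of order `τ` and
   `rad_i ≤ (θ_i + o(1)) h` has Hausdorff dimension `d min (1, (2 - ∑ (1 - θ_i)) / τ)`.
6. For `0 < lam ≤ 3`, the set of the `ξ ∈ K ⊗ ℝ` with approximations of order `τ` and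
   `rad ≤ lam h + c` has Hausdorff dimension at most `d F(lam) / τ`. -/
theorem result (K : Type) [Field K] [NumberField K] [MeasurableSpace (FinAd K)]
    [BorelSpace (FinAd K)] (μ : Measure (FinAd K)) [IsFiniteMeasure μ] [μ.IsAddLeftInvariant] :
    (∀ᵐ u : mixedSpace K × FinAd K ∂(volume.prod μ), ∀ V : Finset (HeightOneSpectrum (𝓞 K)),
      (∀ ε : ℝ, 0 < ε → ∃ C : ℝ, ∀ x : Fin 3 → K, IsPoint x →
        prox V u x ≤ (F (rad x / height x) + ε) * height x + C) ∧
      (∀ c ε : ℝ, 0 < ε → ∃ B : ℝ, ∀ x : Fin 3 → K, IsPoint x → B ≤ height x →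
        (20 / 37 + ε) * height x ≤ prox V u x → height x + c < rad x) ∧
      (∀ ε : ℝ, 0 < ε → ∃ C : ℝ, ∀ x : Fin 3 → K, IsPoint x →
        ((1 + ε) * height x ≤ prox V u x ∨ 2 * height x ≤ rad x) →
        height x + prox V u x ≤ rad x + ε * height x + C) ∧
      ∀ (τ : InfinitePlace K → ℝ) (σ : HeightOneSpectrum (𝓞 K) → ℝ) (θ : Fin 3 → ℝ),
        (∑ i, (1 - θ i) ≤ 1 ∨ 1 < ∑ w, τ w + ∑ v ∈ V, σ v) →
        (IsLimit V u τ σ θ ↔ (∀ w, 0 ≤ τ w) ∧ (∀ v ∈ V, 0 ≤ σ v) ∧
          (∀ i, 0 ≤ θ i ∧ θ i ≤ 1) ∧ ∑ w, τ w + ∑ v ∈ V, σ v + ∑ i, (1 - θ i) ≤ 2)) ∧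
    (∀ (τ : ℝ) (θ : Fin 3 → ℝ), 0 < τ → (∀ i, 0 ≤ θ i ∧ θ i ≤ 1) → ∑ i, (1 - θ i) ≤ 1 →
      dimH (Approximable K τ θ) = ENNReal.ofReal
        ((Module.finrank ℚ K : ℝ) * min 1 ((2 - ∑ i, (1 - θ i)) / τ))) ∧
    ∀ lam τ : ℝ, 0 < lam → lam ≤ 3 → 0 < τ →
      dimH (SmallRadical K lam τ) ≤ ENNReal.ofReal ((Module.finrank ℚ K : ℝ) * F lam / τ) := by
  have hd := hd (K := K)
  have hd1 := hd1 (K := K)
  refine ⟨?_, ?_, ?_⟩
  · filter_upwards [Q273.AD.trm (K := K) μ] with u hu
    intro V
    obtain ⟨h1, h2, h3, h4⟩ := hu V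
    refine ⟨fun ε hε => ?_, fun c ε hε => ?_, fun ε hε => ?_, fun τ σ θ hreg => ?_⟩
    · obtain ⟨C, hC⟩ := h1 ε hε
      refine ⟨C / (Module.finrank ℚ K : ℝ), fun x hx => ?_⟩
      have g1 := hC x ((isPt_iff x).1 hx)
      rw [ep, er, eh, mul_div_mul_left _ _ hd.ne', eF] at g1
      have e1 : (Module.finrank ℚ K : ℝ) * (C / (Module.finrank ℚ K : ℝ)) = C := by
        field_simp
      refine le_of_mul_le_mul_left ?_ hd
      rw [mul_add, e1]
      linarith
    · obtain ⟨B, hB⟩ := h2 ((Module.finrank ℚ K : ℝ) * c) ε hε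
      refine ⟨B / (Module.finrank ℚ K : ℝ), fun x hx hBx hle => ?_⟩
      have g1 := hB x ((isPt_iff x).1 hx) (by
        rw [eh]
        rw [div_le_iff₀ hd] at hBx
        linarith) (by
        have := mul_le_mul_of_nonneg_left hle hd.le
        have e1 := ep V u x
        rw [eh]
        refine le_trans ?_ (le_of_eq e1.symm)
        linarith)
      rw [er, eh] at g1
      refine lt_of_mul_lt_mul_left ?_ hd.le
      rw [mul_add]
      exact g1
    · obtain ⟨C, hC⟩ := h3 ε hε
      refine ⟨C / (Module.finrank ℚ K : ℝ), fun x hx hle => ?_⟩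
      have g1 := hC x ((isPt_iff x).1 hx) (by
        rw [ep, er, eh]
        rcases hle with hle | hle
        · left
          have := mul_le_mul_of_nonneg_left hle hd.le
          linarith
        · right
          have := mul_le_mul_of_nonneg_left hle hd.le
          linarith)
      rw [ep, er, eh] at g1
      have e1 : (Module.finrank ℚ K : ℝ) * (C / (Module.finrank ℚ K : ℝ)) = C := by
        field_simp
      refine le_of_mul_le_mul_left ?_ hd
      rw [mul_add, mul_add, mul_add, e1]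
      linarith
    · rw [isLimit_iff]
      refine (h4 τ σ (fun i => 1 - θ i) hreg).trans ?_
      refine and_congr Iff.rfl (and_congr Iff.rfl (and_congr ?_ Iff.rfl))
      refine forall_congr' fun i => ?_
      constructor
      · rintro ⟨h5, h6⟩
        exact ⟨by linarith, by linarith⟩
      · rintro ⟨h5, h6⟩
        exact ⟨by linarith, by linarith⟩
  · intro τ θ hτ hθ hκ
    set Δ : ℝ := ∑ i, (1 - θ i) with hΔ
    -- the trivial upper bound
    have htriv : ∀ S : Set (mixedSpace K), dimH S ≤ ENNReal.ofReal (Module.finrank ℚ K : ℝ) := by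
      intro S
      refine (dimH_mono (Set.subset_univ S)).trans (le_of_eq ?_)
      rw [Real.dimH_univ_eq_finrank, mixedEmbedding.finrank K, ENNReal.ofReal_natCast]
    have hkey : ∀ τ : ℝ, 0 < τ → 2 - Δ ≤ τ →
        dimH (Approximable K τ θ) =
          ENNReal.ofReal ((Module.finrank ℚ K : ℝ) * ((2 - Δ) / τ)) := by
      intro τ hτ hτ2
      have hτd : 0 < τ / (Module.finrank ℚ K : ℝ) := by positivity
      have e : (2 - Δ) / (τ / (Module.finrank ℚ K : ℝ)) =
          (Module.finrank ℚ K : ℝ) * ((2 - Δ) / τ) := by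
        field_simp
      rw [approximable_eq, ← e]
      refine Q273.AD.dim_AppM hτd (fun i => (hθ i).1) (fun i => (hθ i).2) hκ ?_
      rw [div_mul_cancel₀ _ hd.ne']
      exact hτ2
    rcases le_or_gt (2 - Δ) τ with h | h
    · rw [min_eq_right ((div_le_one hτ).2 h)]
      exact hkey τ hτ h
    · rw [min_eq_left ((one_le_div hτ).2 h.le), mul_one]
      refine le_antisymm (htriv _) ?_
      have h2 := hkey (2 - Δ) (hτ.trans h) le_rfl
      rw [div_self (hτ.trans h).ne', mul_one] at h2
      rw [← h2]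
      refine dimH_mono fun ξ hξ => ?_
      intro ε hε B
      obtain ⟨x, h3, h4, h5, h6⟩ := hξ ε hε (max B 0)
      have h7 : 0 ≤ height x := (le_max_right _ _).trans h4
      refine ⟨x, h3, (le_max_left _ _).trans h4, h5.trans (Real.exp_le_exp.2 ?_), h6⟩
      have h8 : (τ - ε) * height x ≤ (2 - Δ - ε) * height x :=
        mul_le_mul_of_nonneg_right (by linarith) h7
      linarith
  · intro lam τ h0 h1 hτ
    have hτd : 0 < τ / (Module.finrank ℚ K : ℝ) := by positivity
    refine ((dimH_mono (small_sub lam τ)).trans (Q273.AD.dim_SmM h0 h1 hτd)).trans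
      (le_of_eq ?_)
    rw [eF]
    congr 1
    field_simp

end Pool.Agent.Results.MP_a793bb_nt.MetricAbcLaw
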